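import Pool.Agent.Y462.EI.Stm

/-!
# Amalgamated products as directed colimits, internal amalgamated products
-/

set_option autoImplicit false

open Classical

namespace Pool.Agent.Y620.EI

open Pool.Agent.Y462.SS (Wr Closed)
open Pool.Agent.Y462.PA (Am)
open Pool.Agent.Y110.FJ (ClosedE Amg)
open Pool.Agent.Y462.EI

section tr

variable {A B : Type} [Group A] [Group B]

/-- the map between two amalgamated products of the same groups over different groups -/
noncomputable def tr {K K' : Type} [Group K] [Group K'] (α : K →* A) (β : K →* B)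
    (α' : K' →* A) (β' : K' →* B) (h : ∀ c : K, Am.inl α' β' (α c) = Am.inr α' β' (β c)) :
    Am α β →* Am α' β' :=
  Am.lift α β (Am.inl α' β') (Am.inr α' β') h

variable {K K' K'' : Type} [Group K] [Group K'] [Group K''] (α : K →* A) (β : K →* B)
    (α' : K' →* A) (β' : K' →* B) (α'' : K'' →* A) (β'' : K'' →* B)
    (h : ∀ c : K, Am.inl α' β' (α c) = Am.inr α' β' (β c))

theorem tr_inl (a : A) : tr α β α' β' h (Am.inl α β a) = Am.inl α' β' a :=
  Am.lift_inl _ _ _ _ _ a

theorem tr_inr (b : B) : tr α β α' β' h (Am.inr α β b) = Am.inr α' β' b :=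
  Am.lift_inr _ _ _ _ _ b

theorem tr_self (h : ∀ c : K, Am.inl α β (α c) = Am.inr α β (β c)) (x : Am α β) :
    tr α β α β h x = x := by
  have e : tr α β α β h = MonoidHom.id _ := by
    apply Am.hom_ext
    · intro a
      rw [tr_inl]
      rfl
    · intro b
      rw [tr_inr]
      rfl
  rw [e]
  rfl

theorem tr_tr (h' : ∀ c : K', Am.inl α'' β'' (α' c) = Am.inr α'' β'' (β' c))
    (h'' : ∀ c : K, Am.inl α'' β'' (α c) = Am.inr α'' β'' (β c)) (x : Am α β) :
    tr α' β' α'' β'' h' (tr α β α' β' h x) = tr α β α'' β'' h'' x := by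
  have e : (tr α' β' α'' β'' h').comp (tr α β α' β' h) = tr α β α'' β'' h'' := by
    apply Am.hom_ext
    · intro a
      rw [MonoidHom.comp_apply, tr_inl, tr_inl, tr_inl]
    · intro b
      rw [MonoidHom.comp_apply, tr_inr, tr_inr, tr_inr]
  exact DFunLike.congr_fun e x

theorem tr_surj : Function.Surjective (tr α β α' β' h) := by
  rw [← MonoidHom.range_eq_top, eq_top_iff, ← Am.sup_range α' β', sup_le_iff]
  constructor
  · rintro _ ⟨a, rfl⟩
    exact ⟨_, tr_inl α β α' β' h a⟩
  · rintro _ ⟨b, rfl⟩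
    exact ⟨_, tr_inr α β α' β' h b⟩

end tr

section col

variable {K A B : Type} [Group K] [Group A] [Group B] (α : K →* A) (β : K →* B)

/-- the amalgamated product over a subgroup of `K` -/
abbrev GF (F : Finset K) : Type :=
  Am (α.comp (Subgroup.closure (F : Set K)).subtype)
      (β.comp (Subgroup.closure (F : Set K)).subtype)

/-- glueing for a member of the subgroup -/
theorem glueF (F : Finset K) (c : K) (hc : c ∈ Subgroup.closure (F : Set K)) :
    Am.inl (α.comp (Subgroup.closure (F : Set K)).subtype)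
      (β.comp (Subgroup.closure (F : Set K)).subtype) (α c) =
    Am.inr (α.comp (Subgroup.closure (F : Set K)).subtype)
      (β.comp (Subgroup.closure (F : Set K)).subtype) (β c) :=
  Am.glue (α.comp (Subgroup.closure (F : Set K)).subtype)
      (β.comp (Subgroup.closure (F : Set K)).subtype) ⟨c, hc⟩

/-- the transition maps -/
noncomputable def fF (F F' : Finset K) (h : F ≤ F') : GF α β F →* GF α β F' :=
  tr _ _ _ _ (fun c => glueF α β F' c.1
    (Subgroup.closure_mono (Finset.coe_subset.2 h) c.2))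

/-- the maps to the limit -/
noncomputable def gF (F : Finset K) : GF α β F →* Am α β :=
  tr _ _ _ _ (fun c => Am.glue α β c.1)

theorem fF_fF (F F' F'' : Finset K) (h : F ≤ F') (h' : F' ≤ F'') (x : GF α β F) :
    fF α β F' F'' h' (fF α β F F' h x) = fF α β F F'' (h.trans h') x :=
  tr_tr _ _ _ _ _ _ _ _ _ x

theorem gF_fF (F F' : Finset K) (h : F ≤ F') (x : GF α β F) :
    gF α β F' (fF α β F F' h x) = gF α β F x :=
  tr_tr _ _ _ _ _ _ _ _ _ x

/-- the kernel of the map to the limit -/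
def NN : Subgroup (GF α β ∅) where
  carrier := {y | ∃ F : Finset K, fF α β ∅ F (Finset.empty_subset F) y = 1}
  one_mem' := ⟨∅, map_one _⟩
  mul_mem' := by
    rintro x y ⟨F, hF⟩ ⟨F', hF'⟩
    refine ⟨F ∪ F', ?_⟩
    have e1 : fF α β ∅ (F ∪ F') (Finset.empty_subset _) x = 1 := by
      rw [← fF_fF α β ∅ F (F ∪ F') (Finset.empty_subset F) Finset.subset_union_left, hF, map_one]
    have e2 : fF α β ∅ (F ∪ F') (Finset.empty_subset _) y = 1 := by
      rw [← fF_fF α β ∅ F' (F ∪ F') (Finset.empty_subset F') Finset.subset_union_right, hF',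
        map_one]
    rw [map_mul, e1, e2, mul_one]
  inv_mem' := by
    rintro x ⟨F, hF⟩
    exact ⟨F, by rw [map_inv, hF, inv_one]⟩

instance : (NN α β).Normal := ⟨by
  rintro x ⟨F, hF⟩ g
  exact ⟨F, by rw [map_mul, map_mul, map_inv, hF, mul_one, mul_inv_cancel]⟩⟩

theorem glueN (c : K) : (QuotientGroup.mk' (NN α β)).comp (Am.inl _ _) (α c) =
    (QuotientGroup.mk' (NN α β)).comp (Am.inr _ _) (β c) := by
  rw [← mul_inv_eq_one, ← map_inv, MonoidHom.comp_apply, MonoidHom.comp_apply, ← map_mul]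
  refine (QuotientGroup.eq_one_iff _).2 ⟨{c}, ?_⟩
  have hc : c ∈ Subgroup.closure (({c} : Finset K) : Set K) :=
    Subgroup.subset_closure (by simp)
  have e := glueF α β {c} c hc
  have e1 : fF α β ∅ {c} (Finset.empty_subset _) (Am.inl _ _ (α c)) = Am.inl _ _ (α c) :=
    tr_inl _ _ _ _ _ _
  have e2 : fF α β ∅ {c} (Finset.empty_subset _) (Am.inr _ _ (β c)⁻¹) = Am.inr _ _ (β c)⁻¹ :=
    tr_inr _ _ _ _ _ _
  rw [map_mul, e1, e2, e, map_inv, mul_inv_cancel]

theorem ker_gF (y : GF α β ∅) (hy : gF α β ∅ y = 1) : y ∈ NN α β := by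
  have e : (Am.lift α β ((QuotientGroup.mk' (NN α β)).comp (Am.inl _ _))
      ((QuotientGroup.mk' (NN α β)).comp (Am.inr _ _)) (glueN α β)).comp (gF α β ∅) =
      QuotientGroup.mk' (NN α β) := by
    apply Am.hom_ext
    · intro a
      have e1 : gF α β ∅ (Am.inl _ _ a) = Am.inl _ _ a := tr_inl _ _ _ _ _ _
      rw [MonoidHom.comp_apply, e1, Am.lift_inl]
      rfl
    · intro b
      have e1 : gF α β ∅ (Am.inr _ _ b) = Am.inr _ _ b := tr_inr _ _ _ _ _ _
      rw [MonoidHom.comp_apply, e1, Am.lift_inr]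
      rfl
  have e2 := DFunLike.congr_fun e y
  rw [MonoidHom.comp_apply, hy, map_one] at e2
  exact (QuotientGroup.eq_one_iff y).1 e2.symm

end col

theorem t_cola : S_COLA := by
  intro C hC K A B _ _ _ α β h
  refine hC.colim (Finset K) (fun i j => ⟨i ∪ j, Finset.subset_union_left,
    Finset.subset_union_right⟩) (fun F => GF α β F) (fF α β) (Am α β) (gF α β)
    (fun i h x => tr_self _ _ _ x) (fun i j k h h' x => fF_fF α β i j k h h' x)
    (fun i j h x => gF_fF α β i j h x) ?_ ?_ h
  · intro y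
    obtain ⟨x, hx⟩ : ∃ x, gF α β ∅ x = y := tr_surj _ _ _ _ _ y
    exact ⟨∅, x, hx⟩
  · intro i x hx
    obtain ⟨y, rfl⟩ : ∃ y, fF α β ∅ i (Finset.empty_subset i) y = x := tr_surj _ _ _ _ _ x
    rw [gF_fF] at hx
    obtain ⟨F, hF⟩ := ker_gF α β y hx
    refine ⟨i ∪ F, Finset.subset_union_left, ?_⟩
    rw [fF_fF, ← fF_fF α β ∅ F (i ∪ F) (Finset.empty_subset F) Finset.subset_union_right, hF,
      map_one]

theorem t_amg : S_AMG := by
  intro G _ A B K h
  obtain ⟨j, hj1, hj2⟩ := h.univ
    (Am (Subgroup.inclusion h.le_left) (Subgroup.inclusion h.le_right))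
    (Am.inl _ _) (Am.inr _ _) (fun c hc => Am.glue (Subgroup.inclusion h.le_left)
      (Subgroup.inclusion h.le_right) ⟨c, hc⟩)
  refine ⟨j, ?_⟩
  have h0 : ∀ c : K, A.subtype (Subgroup.inclusion h.le_left c) =
      B.subtype (Subgroup.inclusion h.le_right c) := by
    intro c
    simp only [Subgroup.subtype_apply, Subgroup.coe_inclusion]
  obtain ⟨l, hl⟩ : ∃ l, l = Am.lift (Subgroup.inclusion h.le_left)
    (Subgroup.inclusion h.le_right) A.subtype B.subtype h0 := ⟨_, rfl⟩
  have e : ∀ x ∈ A ⊔ B, l (j x) = x := by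
    have : A ⊔ B ≤ (l.comp j).eqLocus (MonoidHom.id G) := by
      rw [sup_le_iff]
      constructor
      · intro a ha
        change l (j ((⟨a, ha⟩ : A) : G)) = a
        rw [hj1, hl, Am.lift_inl]
        rfl
      · intro b hb
        change l (j ((⟨b, hb⟩ : B) : G)) = b
        rw [hj2, hl, Am.lift_inr]
        rfl
    intro x hx
    exact this hx
  intro x y hxy
  rw [← e x (h.gen ▸ Subgroup.mem_top x), ← e y (h.gen ▸ Subgroup.mem_top y), hxy]

end Pool.Agent.Y620.EI
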